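import Pool.Agent.Y775.W3.Stm

set_option autoImplicit false

/-!
# The five term relation on a locally finite field
-/

namespace Pool.Agent.Y953.W3.SUM

open Finset

theorem fin {K : Type} [Field K] [Fintype K] [DecidableEq K] (B : K → ℚ)
    (h1 : ∀ x, x ≠ 0 → x ≠ 1 → B (1 - x) = - B x)
    (h2 : ∀ x, x ≠ 0 → x ≠ 1 → B x⁻¹ = - B x)
    (h3 : ∀ x w, x ≠ 0 → x ≠ 1 → w ≠ 0 → w ≠ 1 → x ≠ w →
      - B x + B w + B (x / w) - B ((x - 1) / (w - 1)) + B (x * (w - 1) / (w - x)) = 0)
    (x : K) (hx0 : x ≠ 0) (hx1 : x ≠ 1) : B x = 0 := by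
  set T : Finset K := (univ.erase 0).erase 1 with hT
  have hmT : ∀ w, w ∈ T ↔ w ≠ 0 ∧ w ≠ 1 := by
    intro w
    rw [hT, mem_erase, mem_erase]
    simp [and_comm]
  have hmx : ∀ w, w ∈ T.erase x ↔ w ≠ x ∧ w ≠ 0 ∧ w ≠ 1 := by
    intro w
    rw [mem_erase, hmT]
  have hS : ∑ w ∈ T, B w = 0 := by
    have e1 : ∑ w ∈ T, B w⁻¹ = ∑ w ∈ T, B w := by
      refine Finset.sum_nbij' (fun w => w⁻¹) (fun w => w⁻¹) ?_ ?_ ?_ ?_ ?_
      · intro w hw
        rw [hmT] at hw ⊢
        exact ⟨inv_ne_zero hw.1, fun h => hw.2 (inv_eq_one.1 h)⟩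
      · intro w hw
        rw [hmT] at hw ⊢
        exact ⟨inv_ne_zero hw.1, fun h => hw.2 (inv_eq_one.1 h)⟩
      · intro w _
        exact inv_inv w
      · intro w _
        exact inv_inv w
      · intro w _
        rfl
    have e2 : ∑ w ∈ T, B w⁻¹ = - ∑ w ∈ T, B w := by
      rw [← Finset.sum_neg_distrib]
      refine Finset.sum_congr rfl fun w hw => ?_
      rw [hmT] at hw
      exact h2 w hw.1 hw.2
    linarith
  have hxT : x ∈ T := (hmT x).2 ⟨hx0, hx1⟩
  have h1x : (1 : K) - x ∈ T := by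
    rw [hmT]
    exact ⟨fun h => hx1 (sub_eq_zero.1 h).symm, fun h => hx0 (by linear_combination -h)⟩
  have hb : ∑ w ∈ T.erase x, B w = - B x := by
    have := Finset.add_sum_erase T B hxT
    linarith
  have hc : ∑ w ∈ T.erase x, B (x / w) = - B x := by
    rw [← hb]
    have key : ∀ w ∈ T.erase x, x / w ∈ T.erase x := by
      intro w hw
      rw [hmx] at hw ⊢
      obtain ⟨g1, g2, g3⟩ := hw
      refine ⟨fun h => g3 ?_, div_ne_zero hx0 g2, fun h => g1 ?_⟩
      · rw [div_eq_iff g2] at h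
        exact (mul_left_cancel₀ hx0 (by rw [mul_one]; exact h)).symm
      · rw [div_eq_iff g2, one_mul] at h
        exact h.symm
    have key2 : ∀ w ∈ T.erase x, x / (x / w) = w := by
      intro w hw
      rw [hmx] at hw
      exact div_div_cancel₀ hx0
    exact Finset.sum_nbij' (fun w => x / w) (fun w => x / w) key key key2 key2 fun w _ => rfl
  have hd : ∑ w ∈ T.erase x, B ((x - 1) / (w - 1)) = B x := by
    have e1 : ∑ u ∈ T.erase (1 - x), B u = B x := by
      have e2 := Finset.add_sum_erase T B h1x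
      have e3 := h1 x hx0 hx1
      linarith
    rw [← e1]
    have hx1' : x - 1 ≠ 0 := sub_ne_zero.2 hx1
    refine Finset.sum_nbij' (fun w => (x - 1) / (w - 1)) (fun u => 1 + (x - 1) / u) ?_ ?_ ?_ ?_ ?_
    · intro w hw
      rw [hmx] at hw
      obtain ⟨g1, g2, g3⟩ := hw
      have g3' : w - 1 ≠ 0 := sub_ne_zero.2 g3
      rw [mem_erase, hmT]
      refine ⟨fun h => g2 ?_, div_ne_zero hx1' g3', fun h => g1 ?_⟩
      · rw [div_eq_iff g3'] at h
        have h5 : (x - 1) * w = 0 := by linear_combination h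
        exact (mul_eq_zero.1 h5).resolve_left hx1'
      · rw [div_eq_iff g3', one_mul] at h
        linear_combination -h
    · intro u hu
      rw [mem_erase, hmT] at hu
      obtain ⟨g1, g2, g3⟩ := hu
      rw [hmx]
      refine ⟨fun h => g3 ?_, fun h => g1 ?_, fun h => ?_⟩
      · have h5 : (x - 1) / u = x - 1 := by linear_combination h
        rw [div_eq_iff g2] at h5
        exact (mul_left_cancel₀ hx1' (by rw [mul_one]; exact h5)).symm
      · have h5 : (x - 1) / u = -1 := by linear_combination h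
        rw [div_eq_iff g2] at h5
        linear_combination h5
      · have h5 : (x - 1) / u = 0 := by linear_combination h
        exact div_ne_zero hx1' g2 h5
    · intro w hw
      rw [hmx] at hw
      have g3' : w - 1 ≠ 0 := sub_ne_zero.2 hw.2.2
      show 1 + (x - 1) / ((x - 1) / (w - 1)) = w
      rw [div_div_cancel₀ hx1']
      ring
    · intro u _
      show (x - 1) / (1 + (x - 1) / u - 1) = u
      rw [add_sub_cancel_left, div_div_cancel₀ hx1']
    · intro w _
      rfl
  have he : ∑ w ∈ T.erase x, B (x * (w - 1) / (w - x)) = - B x := by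
    rw [← hb]
    have hx1' : x - 1 ≠ 0 := sub_ne_zero.2 hx1
    have key : ∀ w ∈ T.erase x, x * (w - 1) / (w - x) ∈ T.erase x := by
      intro w hw
      rw [hmx] at hw ⊢
      obtain ⟨g1, g2, g3⟩ := hw
      have g1' : w - x ≠ 0 := sub_ne_zero.2 g1
      have g3' : w - 1 ≠ 0 := sub_ne_zero.2 g3
      refine ⟨fun h => ?_, div_ne_zero (mul_ne_zero hx0 g3') g1', fun h => g2 ?_⟩
      · rw [div_eq_iff g1'] at h
        have h5 : x * (x - 1) = 0 := by linear_combination h
        rcases mul_eq_zero.1 h5 with h6 | h6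
        · exact hx0 h6
        · exact hx1' h6
      · rw [div_eq_iff g1', one_mul] at h
        have h5 : (x - 1) * w = 0 := by linear_combination h
        exact (mul_eq_zero.1 h5).resolve_left hx1'
    have key2 : ∀ w ∈ T.erase x,
        x * (x * (w - 1) / (w - x) - 1) / (x * (w - 1) / (w - x) - x) = w := by
      intro w hw
      rw [hmx] at hw
      obtain ⟨g1, g2, g3⟩ := hw
      have g1' : w - x ≠ 0 := sub_ne_zero.2 g1
      have e1 : x * (w - 1) / (w - x) - 1 = w * (x - 1) / (w - x) := by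
        field_simp
        ring
      have e2 : x * (w - 1) / (w - x) - x = x * (x - 1) / (w - x) := by
        field_simp
        ring
      rw [e1, e2, div_eq_iff (div_ne_zero (mul_ne_zero hx0 hx1') g1')]
      ring
    exact Finset.sum_nbij' (fun w => x * (w - 1) / (w - x)) (fun w => x * (w - 1) / (w - x))
      key key key2 key2 fun w _ => rfl
  have htot : ∑ w ∈ T.erase x, (- B x + B w + B (x / w) - B ((x - 1) / (w - 1)) +
      B (x * (w - 1) / (w - x))) = 0 := by
    refine Finset.sum_eq_zero fun w hw => ?_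
    rw [hmx] at hw
    exact h3 x w hx0 hx1 hw.2.1 hw.2.2 (Ne.symm hw.1)
  rw [Finset.sum_add_distrib, Finset.sum_sub_distrib, Finset.sum_add_distrib,
    Finset.sum_add_distrib, hb, hc, hd, he, Finset.sum_const, nsmul_eq_mul] at htot
  have h5 : (((T.erase x).card : ℚ) + 4) * B x = 0 := by linarith
  rcases mul_eq_zero.1 h5 with h6 | h6
  · have : (0 : ℚ) ≤ ((T.erase x).card : ℚ) := Nat.cast_nonneg _
    linarith
  · exact h6

theorem main : Y775.W3.StmSUM := by
  classical
  intro K _ hK B h1 h2 h3 x hx0 hx1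
  obtain ⟨F, hF, hxF⟩ := hK x
  have := Fintype.ofFinite F
  have inj : Function.Injective ((↑) : F → K) := Subtype.val_injective
  have n0 : ∀ y : F, y ≠ 0 → (y : K) ≠ 0 := fun y hy h => hy (inj (by simpa using h))
  have n1 : ∀ y : F, y ≠ 1 → (y : K) ≠ 1 := fun y hy h => hy (inj (by simpa using h))
  refine fin (K := F) (fun y => B (y : K)) ?_ ?_ ?_ ⟨x, hxF⟩ ?_ ?_
  · intro y hy0 hy1
    have := h1 y (n0 y hy0) (n1 y hy1)
    simpa using this
  · intro y hy0 hy1
    have := h2 y (n0 y hy0) (n1 y hy1)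
    simpa using this
  · intro y w hy0 hy1 hw0 hw1 hyw
    have := h3 y w (n0 y hy0) (n1 y hy1) (n0 w hw0) (n1 w hw1) (fun h => hyw (inj h))
    simpa using this
  · intro h
    exact hx0 (by simpa using congrArg (fun y : F => (y : K)) h)
  · intro h
    exact hx1 (by simpa using congrArg (fun y : F => (y : K)) h)

end Pool.Agent.Y953.W3.SUM
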